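import Pool.Agent.H7.LP.Targets5

/-!
# PLC: locally compact second countable Hausdorff spaces are Polish (board lpr)
-/

set_option autoImplicit false

namespace Pool.Agent.H5.LR

open Set Filter Topology

open Pool.Agent.H7.LP Pool.Agent.H54.LP Pool.Agent.H93.CP Pool.Agent.H7.LR

theorem pf_PLC : T_PLC := by
  intro X _ _ _ _
  let _ : MetricSpace X := TopologicalSpace.metrizableSpaceMetric X
  have hde : IsDenseEmbedding ((↑) : X → UniformSpace.Completion X) :=
    UniformSpace.Completion.isDenseEmbedding_coe
  have hopen : IsOpen (range ((↑) : X → UniformSpace.Completion X)) := by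
    rw [isOpen_iff_mem_nhds]
    rintro _ ⟨x, rfl⟩
    obtain ⟨K, hK, hKx⟩ := exists_compact_mem_nhds x
    have hKc : IsClosed (((↑) : X → UniformSpace.Completion X) '' K) :=
      (hK.image hde.isEmbedding.continuous).isClosed
    obtain ⟨W, hW, hWK⟩ := hde.isEmbedding.isInducing.isOpen_iff.1 (isOpen_interior (s := K))
    have hxW : (x : UniformSpace.Completion X) ∈ W := by
      have h1 : x ∈ ((↑) : X → UniformSpace.Completion X) ⁻¹' W := by
        rw [hWK]
        exact mem_interior_iff_mem_nhds.2 hKx
      exact h1
    apply Filter.mem_of_superset (hW.mem_nhds hxW)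
    intro y hy
    have h2 : y ∈ closure (W ∩ range ((↑) : X → UniformSpace.Completion X)) :=
      hW.inter_closure ⟨hy, hde.dense y⟩
    have h3 : W ∩ range ((↑) : X → UniformSpace.Completion X) ⊆
        ((↑) : X → UniformSpace.Completion X) '' K := by
      rintro _ ⟨hz, z, rfl⟩
      have h4 : z ∈ ((↑) : X → UniformSpace.Completion X) ⁻¹' W := hz
      rw [hWK] at h4
      exact ⟨z, interior_subset h4, rfl⟩
    obtain ⟨z, _, hz⟩ := (closure_minimal h3 hKc) h2
    exact ⟨z, hz⟩
  have _ : PolishSpace (range ((↑) : X → UniformSpace.Completion X)) := hopen.polishSpace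
  exact hde.isEmbedding.toHomeomorph.isClosedEmbedding.polishSpace

end Pool.Agent.H5.LR
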